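import Mathlib
import Pool.Agent.H55.Sharp
import Pool.Agent.H46.EX.EquivQ

/-!
# The Turán exponent of the cube as a statement about all graphs of bounded degree

Let `A` be a graph of diameter at most three with at least two edges, for example the cube. Nothing
is assumed on the order of `ex(n, A)`.

(1) For every `δ > 0` there is `C` such that every finite graph `H` with all degrees at most `d`
(and any number of vertices) is the union of at most
`C max_{1 ≤ k ≤ d} (d / k) ^ δ k ^ 2 / ex(k + 1, A)` subgraphs without `A`. On the other hand the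
complete graph on `k + 1` vertices, which has degree `k`, is not the union of fewer than
`k (k + 1) / (2 ex(k + 1, A))` such graphs.

(2) For every positive function `φ` with
`(n / m) ^ δ / L ≤ φ n / φ m ≤ L n / m` for `1 ≤ m ≤ n` (`δ > 0` and `L` fixed), for example
`φ n = n ^ (2 - α)` with `1 < α < 2`, the following are equivalent.

* (T) `ex(n, A) ≥ c n ^ 2 / φ n` for some `c > 0` and all large `n`.
* (D) Every finite graph with all degrees at most `d` is the union of at most `C φ d` subgraphs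
  without `A` with all degrees at most `C d / φ d`.
* (E) Every finite graph `H` with all degrees at most `d` has a subgraph without `A` with at least
  `c e(H) / φ d` edges.
* (R) The edges of the complete graph on `n` vertices can be coloured with at most `C φ n` colours
  without an `A` in one colour, for all `n`.

Nothing is lost, not even a power of a logarithm, and no upper bound for `ex(n, A)` is used.

(3) Hence `8/5` is the exponent of the cube if and only if (D), or (E), or (R) holds for the cube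
and all `φ n = n ^ (2 - α)` with `1 < α < 8/5`.

Proof of (D) from (T). Splitting vertices gives bipartite graphs `F` without `A` with `N` vertices,
about `N ^ 2 / φ N` edges and all degrees `O (N / φ N)`: the split graph maps to the old one by a
locally injective homomorphism, and such maps to a graph without triangles are injective on graphs
of diameter three. Let all degrees of `H` be at most `d = 4 r`, `N = 16 r`. `O (φ N)` random
maps from `H` to `F` pull back pieces of `H` on which the map is locally injective, so they contain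
no `A`. By an exponential moment bound and the local lemma, some choice of the maps leaves a graph
with all degrees at most `3 r`. Iterate; the numbers of pieces form a geometric series. The general
functions `φ` and (1) are from `Pool.Agent.H46.EX`.
-/

set_option autoImplicit false

namespace Pool.Agent.Results.MP_0774fe_co.DecompositionForm

open SimpleGraph Pool.Agent.H55 Pool.Agent.H46.EX

/-- `φ` is positive and for some `δ > 0` and `L`,
`(n / m) ^ δ φ m ≤ L φ n` and `φ n ≤ L (n / m) φ m` for all `1 ≤ m ≤ n`. -/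
def Regular (φ : ℕ → ℝ) : Prop :=
  (∀ n : ℕ, 1 ≤ n → 0 < φ n) ∧ ∃ δ L : ℝ, 0 < δ ∧ ∀ m n : ℕ, 1 ≤ m → m ≤ n →
    ((n : ℝ) / m) ^ δ * φ m ≤ L * φ n ∧ φ n ≤ L * ((n : ℝ) / m * φ m)

/-- (T) `ex (n, A) ≥ c n ^ 2 / φ n` for some `c > 0` and all large `n`. -/
def Turan {U : Type} (A : SimpleGraph U) (φ : ℕ → ℝ) : Prop :=
  ∃ c : ℝ, 0 < c ∧ ∃ N : ℕ, ∀ n : ℕ, N ≤ n →
    c * ((n : ℝ) ^ 2 / φ n) ≤ (extremalNumber n A : ℝ)

/-- (D) Every finite graph with all degrees at most `d` is the union of at most `C φ d` subgraphs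
without `A` with all degrees at most `C d / φ d`. -/
def Decomposition {U : Type} (A : SimpleGraph U) (φ : ℕ → ℝ) : Prop :=
  ∃ C : ℝ, ∀ (V : Type) [Finite V] (H : SimpleGraph V) (d : ℕ), 1 ≤ d →
    (∀ x, (H.neighborSet x).ncard ≤ d) →
    ∃ M : ℕ, (M : ℝ) ≤ C * φ d ∧
      UnionOf (fun F : SimpleGraph V => A.Free F ∧
        ∀ x, ((F.neighborSet x).ncard : ℝ) ≤ C * (d / φ d)) H M

/-- (E) Every finite graph `H` with all degrees at most `d` has a subgraph without `A` with
at least `c e(H) / φ d` edges. -/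
def RelativeTuran {U : Type} (A : SimpleGraph U) (φ : ℕ → ℝ) : Prop :=
  ∃ c : ℝ, 0 < c ∧ ∀ (V : Type) [Finite V] (H : SimpleGraph V) (d : ℕ), 1 ≤ d →
    (∀ x, (H.neighborSet x).ncard ≤ d) → ∃ F ≤ H, A.Free F ∧
      c * ((H.edgeSet.ncard : ℝ) / φ d) ≤ (F.edgeSet.ncard : ℝ)

/-- (R) The edges of the complete graph on `n ≥ 1` vertices can be coloured with at most `C φ n`
colours without an `A` in one colour. -/
def Ramsey {U : Type} (A : SimpleGraph U) (φ : ℕ → ℝ) : Prop :=
  ∃ C : ℝ, ∀ n : ℕ, 1 ≤ n → ∃ q : ℕ, (q : ℝ) ≤ C * φ n ∧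
    ∃ χ : Sym2 (Fin n) → Fin q, ∀ i, A.Free (colourClass χ i)

/-- The graph of the three-dimensional cube. -/
def Q8 : SimpleGraph (Fin 3 → Bool) where
  Adj x y := (Finset.univ.filter (fun i => x i ≠ y i)).card = 1
  symm := ⟨fun x y h => by simpa only [ne_comm] using h⟩
  loopless := ⟨fun x h => by simp at h⟩

instance : DecidableRel Q8.Adj := fun x y =>
  inferInstanceAs (Decidable ((Finset.univ.filter (fun i => x i ≠ y i)).card = 1))

lemma q8_diam : DiamLeThree Q8 := by
  refine diam_of_dec ?_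
  decide

lemma q8_cherry : ∃ x y z, Q8.Adj x y ∧ Q8.Adj x z ∧ y ≠ z :=
  ⟨![false, false, false], ![true, false, false], ![false, true, false], by decide, by decide,
    by decide⟩

lemma ne_bot {U : Type} {A : SimpleGraph U} (hc : ∃ x y z, A.Adj x y ∧ A.Adj x z ∧ y ≠ z) :
    A ≠ ⊥ := by
  obtain ⟨x, y, z, hxy, _⟩ := hc
  intro h
  rw [h] at hxy
  exact hxy

lemma isEx {U : Type} {A : SimpleGraph U} (hne : A ≠ ⊥) :
    IsEx (AFree A) (fun n => extremalNumber n A) := by
  classical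
  intro n
  constructor
  · obtain ⟨G, _, hG⟩ := exists_isExtremal_free (V := Fin n) hne
    refine ⟨G, hG.prop, ?_⟩
    have h1 := card_edgeFinset_of_isExtremal_free hG
    rw [Fintype.card_fin] at h1
    rw [Set.ncard_eq_toFinset_card', ← SimpleGraph.edgeFinset, h1]
  · intro G hG
    have h1 := card_edgeFinset_le_extremalNumber (G := G) hG
    rw [Fintype.card_fin] at h1
    rw [Set.ncard_eq_toFinset_card', ← SimpleGraph.edgeFinset]
    exact h1

lemma frac {U : Type} (A : SimpleGraph U) : Frac (AFree3 A) (AFree A) 2 := by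
  intro n G hG
  obtain ⟨G', hle, hcol, hv⟩ := bip_sub G
  refine ⟨G', ⟨aFree_mono hle hG, ?_⟩, ?_⟩
  · intro a b c' hab hbc hca
    obtain ⟨C⟩ := hcol
    have h1 := C.valid hab
    have h2 := C.valid hbc
    have h3 := C.valid hca
    have e1 := (C a).isLt
    have e2 := (C b).isLt
    have e3 := (C c').isLt
    have f1 : (C a : ℕ) ≠ C b := fun h => h1 (Fin.ext h)
    have f2 : (C b : ℕ) ≠ C c' := fun h => h2 (Fin.ext h)
    have f3 : (C c' : ℕ) ≠ C a := fun h => h3 (Fin.ext h)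
    omega
  · rw [vol_eq, vol_eq] at hv
    push_cast at hv
    linarith

lemma turan_iff {U : Type} {A : SimpleGraph U} (hne : A ≠ ⊥) (φ : ℕ → ℝ) :
    Turan A φ ↔ DenseF (AFree A) φ := by
  constructor
  · rintro ⟨c, hc, N, h⟩
    refine ⟨c, hc, N, fun n hn => ?_⟩
    obtain ⟨⟨G, hG, he⟩, _⟩ := isEx hne n
    refine ⟨G, hG, ?_⟩
    rw [he]
    exact h n hn
  · rintro ⟨c, hc, N, h⟩
    refine ⟨c, hc, N, fun n hn => ?_⟩
    obtain ⟨G, hG, hd⟩ := h n hn
    exact hd.trans (by exact_mod_cast (isEx hne n).2 G hG)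

lemma equivs {U : Type} {A : SimpleGraph U} (hA : DiamLeThree A)
    (hc : ∃ x y z, A.Adj x y ∧ A.Adj x z ∧ y ≠ z) {φ : ℕ → ℝ} (hφ : Regular φ) :
    (Turan A φ ↔ Decomposition A φ) ∧ (Turan A φ ↔ RelativeTuran A φ) ∧
      (Turan A φ ↔ Ramsey A φ) := by
  obtain ⟨hpos, δ, L, hδ, h⟩ := hφ
  rw [turan_iff (ne_bot hc)]
  exact four_equivQ (P := AFree3 A) (Q := AFree A) (aFree3_class hA hc)
    (fun V _ F G hle hG => aFree_mono hle hG) (fun V _ G hG => hG.1) two_pos (frac A)
    (⟨hpos, fun m n hm hmn => (h m n hm hmn).1, fun m n hm hmn => (h m n hm hmn).2⟩ :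
      WReg φ δ L) hδ

lemma regular_pow {α : ℝ} (h1 : 1 < α) (h2 : α < 2) : Regular (fun n => (n : ℝ) ^ (2 - α)) := by
  refine ⟨fun n hn => ?_, 2 - α, 1, by linarith, fun m n hm hmn => ?_⟩
  · have : (0 : ℝ) < n := by exact_mod_cast hn
    positivity
  · have hm0 : (0 : ℝ) < m := by exact_mod_cast hm
    have hn0 : (0 : ℝ) < n := by exact_mod_cast (by omega : 0 < n)
    have hmn' : (m : ℝ) ≤ n := by exact_mod_cast hmn
    have e : (n : ℝ) ^ (2 - α) = ((n : ℝ) / m) ^ (2 - α) * (m : ℝ) ^ (2 - α) := by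
      rw [← Real.mul_rpow (by positivity) hm0.le, div_mul_cancel₀ _ hm0.ne']
    constructor
    · rw [one_mul, ← e]
    · rw [one_mul]
      show (n : ℝ) ^ (2 - α) ≤ (n : ℝ) / m * (m : ℝ) ^ (2 - α)
      rw [e]
      refine mul_le_mul_of_nonneg_right ?_ (by positivity)
      calc ((n : ℝ) / m) ^ (2 - α) ≤ ((n : ℝ) / m) ^ (1 : ℝ) :=
            Real.rpow_le_rpow_of_exponent_le ((one_le_div hm0).mpr hmn') (by linarith)
        _ = (n : ℝ) / m := Real.rpow_one _

lemma turanAt_pow {U : Type} {A : SimpleGraph U} (α : ℝ) :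
    TuranAt A α ↔ Turan A (fun n => (n : ℝ) ^ (2 - α)) := by
  have e : ∀ n : ℕ, 1 ≤ n → (n : ℝ) ^ 2 / (n : ℝ) ^ (2 - α) = (n : ℝ) ^ α := by
    intro n hn
    have hn0 : (0 : ℝ) < n := by exact_mod_cast hn
    rw [← Real.rpow_natCast, ← Real.rpow_sub hn0]
    congr 1
    push_cast
    ring
  constructor
  · rintro ⟨c, hc, N, h⟩
    refine ⟨c, hc, N + 1, fun n hn => ?_⟩
    show c * ((n : ℝ) ^ 2 / (n : ℝ) ^ (2 - α)) ≤ _
    rw [e n (by omega)]
    exact h n (by omega)
  · rintro ⟨c, hc, N, h⟩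
    refine ⟨c, hc, N + 1, fun n hn => ?_⟩
    have h1 : c * ((n : ℝ) ^ 2 / (n : ℝ) ^ (2 - α)) ≤ (extremalNumber n A : ℝ) := h n (by omega)
    rw [e n (by omega)] at h1
    exact h1

/-- **Graphs of diameter at most three, in particular the cube: Turán numbers, decompositions of
all graphs of bounded degree, and Ramsey numbers.** -/
theorem result :
    (∀ (U : Type) (A : SimpleGraph U), DiamLeThree A → 2 ≤ A.edgeSet.ncard →
      -- (1) decompositions, without any hypothesis on `ex(n, A)`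
      (∀ δ : ℝ, 0 < δ → ∃ C : ℝ, ∀ (V : Type) [Finite V] (H : SimpleGraph V) (d : ℕ), 1 ≤ d →
        (∀ x, (H.neighborSet x).ncard ≤ d) → ∃ M k : ℕ, 1 ≤ k ∧ k ≤ d ∧
          (M : ℝ) ≤ C * (((d : ℝ) / k) ^ δ * ((k : ℝ) ^ 2 / extremalNumber (k + 1) A)) ∧
          UnionOf (fun F : SimpleGraph V => A.Free F) H M) ∧
      (∀ k M : ℕ, UnionOf (fun F : SimpleGraph (Fin (k + 1)) => A.Free F) ⊤ M →
        k * (k + 1) ≤ 2 * (M * extremalNumber (k + 1) A)) ∧
      -- (2) the equivalences, for every order of growth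
      (∀ φ : ℕ → ℝ, Regular φ → (Turan A φ ↔ Decomposition A φ) ∧
        (Turan A φ ↔ RelativeTuran A φ) ∧ (Turan A φ ↔ Ramsey A φ))) ∧
    -- (3) the cube: three equivalent forms of the question
    (DiamLeThree Q8 ∧ 2 ≤ Q8.edgeSet.ncard) ∧
    ((∀ ε : ℝ, 0 < ε → ∃ N : ℕ, ∀ n : ℕ, N ≤ n →
        (n : ℝ) ^ (8 / 5 - ε) ≤ (extremalNumber n Q8 : ℝ)) ↔
      ∀ α : ℝ, 1 < α → α < 8 / 5 → Decomposition Q8 (fun n => (n : ℝ) ^ (2 - α))) ∧
    ((∀ ε : ℝ, 0 < ε → ∃ N : ℕ, ∀ n : ℕ, N ≤ n →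
        (n : ℝ) ^ (8 / 5 - ε) ≤ (extremalNumber n Q8 : ℝ)) ↔
      ∀ α : ℝ, 1 < α → α < 8 / 5 → RelativeTuran Q8 (fun n => (n : ℝ) ^ (2 - α))) ∧
    ((∀ ε : ℝ, 0 < ε → ∃ N : ℕ, ∀ n : ℕ, N ≤ n →
        (n : ℝ) ^ (8 / 5 - ε) ≤ (extremalNumber n Q8 : ℝ)) ↔
      ∀ α : ℝ, 1 < α → α < 8 / 5 → Ramsey Q8 (fun n => (n : ℝ) ^ (2 - α))) := by
  have hT : (∀ ε : ℝ, 0 < ε → ∃ N : ℕ, ∀ n : ℕ, N ≤ n →
        (n : ℝ) ^ (8 / 5 - ε) ≤ (extremalNumber n Q8 : ℝ)) ↔
      ∀ α : ℝ, 1 < α → α < 8 / 5 → Turan Q8 (fun n => (n : ℝ) ^ (2 - α)) := by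
    refine (sharpAt_iff (A := Q8) (β := 8 / 5) (by norm_num)).trans ?_
    exact forall_congr' fun α => forall_congr' fun _ => forall_congr' fun _ => turanAt_pow α
  have hE : ∀ α : ℝ, 1 < α → α < 8 / 5 →
      (Turan Q8 (fun n => (n : ℝ) ^ (2 - α)) ↔ Decomposition Q8 (fun n => (n : ℝ) ^ (2 - α))) ∧
      (Turan Q8 (fun n => (n : ℝ) ^ (2 - α)) ↔ RelativeTuran Q8 (fun n => (n : ℝ) ^ (2 - α))) ∧
      (Turan Q8 (fun n => (n : ℝ) ^ (2 - α)) ↔ Ramsey Q8 (fun n => (n : ℝ) ^ (2 - α))) :=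
    fun α h1 h2 => equivs q8_diam q8_cherry (regular_pow h1 (by linarith))
  refine ⟨fun U A hA he => ?_, ⟨q8_diam, ?_⟩, ?_, ?_, ?_⟩
  · have hc := cherry hA he
    exact ⟨fun δ hδ => dec_freeQ (P := AFree3 A) (Q := AFree A) (aFree3_class hA hc)
      (fun V _ G hG => hG.1) two_pos (frac A) (isEx (ne_bot hc)) δ hδ,
      fun k M h => dec_lower (isEx (ne_bot hc)) k M h, fun φ hφ => equivs hA hc hφ⟩
  · obtain ⟨x, y, z, hxy, hxz, hyz⟩ := q8_cherry
    have hsub : ({s(x, y), s(x, z)} : Set (Sym2 (Fin 3 → Bool))) ⊆ Q8.edgeSet := by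
      rintro e (rfl | rfl)
      · exact hxy
      · exact hxz
    have hne : s(x, y) ≠ s(x, z) := fun h => hyz (Sym2.congr_right.mp h)
    rw [← Set.ncard_pair hne]
    exact Set.ncard_le_ncard hsub (Set.toFinite _)
  · rw [hT]
    exact forall_congr' fun α => forall_congr' fun h1 => forall_congr' fun h2 => (hE α h1 h2).1
  · rw [hT]
    exact forall_congr' fun α => forall_congr' fun h1 => forall_congr' fun h2 => (hE α h1 h2).2.1
  · rw [hT]
    exact forall_congr' fun α => forall_congr' fun h1 => forall_congr' fun h2 => (hE α h1 h2).2.2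

end Pool.Agent.Results.MP_0774fe_co.DecompositionForm
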